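import Pool.Agent.helper78.KNI.Schur

/-!
# Spectral points near integer ratios

`p/q - 3/n ≤ φ (KC p q)` if `9^n ≤ q` and `k - 1/3^n ≤ p/q ≤ k` with `k ≥ 3`.
-/

set_option autoImplicit false

namespace Pool.Agent.KNI

open Pool.Agent.helper67.KN Finset

variable {φ : (V : Type) → [Fintype V] → SimpleGraph V → ℝ}

theorem pow_half (n : ℕ) (hn : 1 ≤ n) : (1 - 1 / (n : ℝ)) ^ n * 2 ≤ 1 := by
  have hn0 : (1 : ℝ) ≤ n := by exact_mod_cast hn
  have h0 : (0 : ℝ) ≤ 1 - 1 / n := by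
    rw [sub_nonneg, div_le_one (by linarith)]
    exact hn0
  have h1 : (2 : ℝ) ≤ (1 + 1 / n) ^ n := by
    have h := one_add_mul_le_pow (a := (1 / n : ℝ)) (by
      have : (0 : ℝ) ≤ 1 / n := by positivity
      linarith) n
    have e : (n : ℝ) * (1 / n) = 1 := by field_simp
    rw [e] at h
    linarith
  calc (1 - 1 / (n : ℝ)) ^ n * 2 ≤ (1 - 1 / (n : ℝ)) ^ n * (1 + 1 / n) ^ n :=
        mul_le_mul_of_nonneg_left h1 (pow_nonneg h0 _)
    _ = (1 - (1 / (n : ℝ)) ^ 2) ^ n := by rw [← mul_pow]; congr 1; ring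
    _ ≤ 1 := pow_le_one₀ (by
        have : (1 / (n : ℝ)) ^ 2 ≤ 1 := pow_le_one₀ (by positivity) (by linarith)
        linarith) (by
        have : (0 : ℝ) ≤ (1 / (n : ℝ)) ^ 2 := by positivity
        linarith)

theorem base_bound (hφ : IsSpectralPoint φ) (m : ℕ) :
    3 - 3 / ((m + 1 : ℕ) : ℝ) ≤ φ _ (KC (W (m + 1)) (W m)) := by
  have h1 := schur hφ m
  have h2 := pow_half (m + 1) (by omega)
  have hF := hφ.nonneg _ (KC (W (m + 1)) (W m))
  set F := φ _ (KC (W (m + 1)) (W m)) with hFdef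
  have hn0 : (1 : ℝ) ≤ ((m + 1 : ℕ) : ℝ) := by exact_mod_cast Nat.succ_le_succ (Nat.zero_le m)
  set n : ℝ := ((m + 1 : ℕ) : ℝ) with hn
  have h0 : (0 : ℝ) ≤ 1 - 1 / n := by
    rw [sub_nonneg, div_le_one (by linarith)]
    exact hn0
  have h3 : 2 * ((W (m + 1) : ℕ) : ℝ) = 3 ^ (m + 1) + 1 := by exact_mod_cast two_W (m + 1)
  have e1 : 3 - 3 / n = 3 * (1 - 1 / n) := by ring
  rw [e1]
  have h4 : (3 * (1 - 1 / n)) ^ (m + 1) ≤ F ^ (m + 1) := by
    refine le_trans ?_ h1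
    rw [mul_pow]
    have h5 : (0 : ℝ) ≤ 3 ^ (m + 1) := by positivity
    nlinarith
  exact (pow_le_pow_iff_left₀ (by positivity) hF (by omega)).1 h4

theorem arith (y Q q t r : ℕ) (hy : 1 ≤ y) (hQ : 2 * Q = y + 1) (hq : 9 * y ^ 2 ≤ q)
    (ht1 : q ≤ Q * t) (ht2 : Q * t ≤ q + Q - 1) (hr : 3 * y * (3 * q) ≤ 3 * y * r + q) :
    (3 * Q - 1) * t ≤ r := by
  by_contra hcon
  push Not at hcon
  have hQ1 : 1 ≤ Q := by omega
  have hQy : Q ≤ y := by omega
  zify at *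
  rw [Nat.cast_sub (by omega)] at hcon
  rw [Nat.cast_sub (by omega)] at ht2
  push_cast at *
  have h1 : (t : ℤ) ≤ 3 * q - r + 3 * Q - 4 := by nlinarith
  have h2 : (3 : ℤ) * y * t ≤ q + 3 * y * (3 * Q - 4) := by nlinarith
  have h3 : (3 : ℤ) * q ≤ 3 * y * t := by nlinarith
  nlinarith

theorem lower_near (hφ : IsSpectralPoint φ) (n p q k : ℕ) (hn : 1 ≤ n) (hk : 3 ≤ k)
    (hq : 9 ^ n ≤ q) (h1 : (k : ℝ) - 1 / 3 ^ n ≤ (p : ℝ) / q) (h2 : (p : ℝ) / q ≤ k) :
    (p : ℝ) / q - 3 / n ≤ φ _ (KC p q) := by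
  obtain ⟨m, rfl⟩ : ∃ m, n = m + 1 := ⟨n - 1, by omega⟩
  have hq1 : 1 ≤ q := le_trans (Nat.one_le_pow _ _ (by norm_num)) hq
  have hqR : (0 : ℝ) < q := by exact_mod_cast hq1
  -- the integer form of the hypothesis
  have h3 : 3 ^ (m + 1) * (k * q) ≤ 3 ^ (m + 1) * p + q := by
    have h4 : ((k : ℝ) - 1 / 3 ^ (m + 1)) * q ≤ p := (le_div_iff₀ hqR).1 h1
    have h5 : (3 : ℝ) ^ (m + 1) * (k * q) ≤ 3 ^ (m + 1) * p + q := by
      have h6 : (0 : ℝ) < 3 ^ (m + 1) := by positivity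
      have h7 := mul_le_mul_of_nonneg_left h4 h6.le
      have h8 : (3 : ℝ) ^ (m + 1) * (((k : ℝ) - 1 / 3 ^ (m + 1)) * q) =
          3 ^ (m + 1) * (k * q) - q := by
        field_simp
      rw [h8] at h7
      linarith
    exact_mod_cast h5
  obtain ⟨i, rfl⟩ := Nat.exists_eq_add_of_le hk
  have hip : i * q ≤ p := by
    have h4 : 1 ≤ 3 ^ (m + 1) := Nat.one_le_pow _ _ (by norm_num)
    by_contra hcon
    push Not at hcon
    have h5 : 3 ^ (m + 1) * p ≤ 3 ^ (m + 1) * (i * q) := Nat.mul_le_mul_left _ hcon.le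
    nlinarith
  obtain ⟨r, rfl⟩ := Nat.exists_eq_add_of_le hip
  -- the block number
  obtain ⟨t, ht⟩ : ∃ t, t = (q + W m - 1) / W m := ⟨_, rfl⟩
  have hW := W_pos m
  have ht2 : W m * t ≤ q + W m - 1 := by rw [ht]; exact Nat.mul_div_le _ _
  have ht1 : q ≤ W m * t := by
    have h4 : q + W m - 1 < W m * t + W m := by
      rw [ht]; exact Nat.lt_mul_div_succ _ hW
    omega
  have e1 : W (m + 1) = 3 * W m - 1 := by
    have a1 := two_W m
    have a2 := two_W (m + 1)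
    rw [pow_succ] at a2
    omega
  have h4 : W (m + 1) * t ≤ r := by
    rw [e1]
    refine arith (3 ^ m) (W m) q t r (Nat.one_le_pow _ _ (by norm_num)) (two_W m) ?_ ht1 ht2 ?_
    · calc 9 * (3 ^ m) ^ 2 = 9 ^ (m + 1) := by
            rw [← pow_mul, mul_comm m 2, pow_mul, pow_succ]; norm_num; ring
        _ ≤ q := hq
    · have h5 : 3 * 3 ^ m = 3 ^ (m + 1) := by rw [pow_succ]; ring
      rw [h5]
      nlinarith
  have h5 := blow hφ (W (m + 1)) (W m) r q t hW hq1 ht1 h4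
  have h6 := base_bound hφ m
  have h7 := steps hφ r q hq1 i
  rw [show r + i * q = i * q + r by ring] at h7
  push_cast at h2 h6 ⊢
  linarith

/-- continuity at integers, uniform, with a rate -/
theorem near_n (hφ : IsSpectralPoint φ) (n p q k : ℕ) (hn : 1 ≤ n) (hq : 1 ≤ q)
    (hp : 2 * q ≤ p) (hδ : |(p : ℝ) / q - k| < 1 / 9 ^ n) :
    0 ≤ (p : ℝ) / q - φ _ (KC p q) ∧ (p : ℝ) / q - φ _ (KC p q) ≤ 3 / n := by
  have hqR : (0 : ℝ) < q := by exact_mod_cast hq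
  have hnR : (0 : ℝ) < n := by exact_mod_cast hn
  have hU := upper hφ p q hq (by omega)
  refine ⟨by linarith, ?_⟩
  rw [abs_lt] at hδ
  rcases le_or_gt ((k : ℝ)) ((p : ℝ) / q) with h | h
  · -- from above
    have h1 : k * q ≤ p := by
      have := (le_div_iff₀ hqR).1 h
      exact_mod_cast this
    have h2 := blocks hφ q hq k
    have h3 := KC_mono hφ q hq h1
    have h4 : (1 : ℝ) / 9 ^ n ≤ 3 / n := by
      have h5 : (n : ℝ) < 9 ^ n := by
        have : n < 9 ^ n := Nat.lt_pow_self (by norm_num)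
        exact_mod_cast this
      rw [div_le_div_iff₀ (by positivity) hnR]
      linarith
    linarith [hδ.2]
  · have hk3 : 3 ≤ k := by
      have h1 : (2 : ℝ) ≤ (p : ℝ) / q := by
        rw [le_div_iff₀ hqR]
        exact_mod_cast hp
      have h2 : (2 : ℝ) < k := by linarith
      exact_mod_cast h2
    rcases Nat.lt_or_ge q (9 ^ n) with hq9 | hq9
    · exfalso
      have h1 : p < k * q := by
        have := (div_lt_iff₀ hqR).1 h
        exact_mod_cast this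
      have h2 : (p : ℝ) + 1 ≤ k * q := by exact_mod_cast h1
      have h3 : (p : ℝ) / q ≤ k - 1 / q := by
        rw [div_le_iff₀ hqR, sub_mul, one_div, inv_mul_cancel₀ hqR.ne']
        linarith
      have h4 : (1 : ℝ) / 9 ^ n < 1 / q := by
        apply one_div_lt_one_div_of_lt hqR
        exact_mod_cast hq9
      linarith [hδ.1]
    · have h1 : (1 : ℝ) / 9 ^ n ≤ 1 / 3 ^ n := by
        apply one_div_le_one_div_of_le (by positivity)
        exact pow_le_pow_left₀ (by norm_num) (by norm_num) n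
      have h2 := lower_near hφ n p q k hn hk3 hq9 (by linarith [hδ.1]) h.le
      linarith

end Pool.Agent.KNI
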