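import Pool.Agent.helper67.KN.Asym

/-!
# Codes of Schur type in Kneser graphs

`W n = (3^n + 1)/2`. The `W n` words `u ↦ (u - A_j)_{j < n}` over the `W (n-1)`-subsets of a
`W n`-set are pairwise disjoint in some coordinate; here `A_j` is the set of all `a < W n` whose
residue modulo `3^(j+1)` lies in `[0, W j) ∪ [W (j+1), W (j+1) + W j - 1)`.
-/

set_option autoImplicit false

namespace Pool.Agent.KNI

open Pool.Agent.helper67.KN Finset

/-- `(3^n + 1)/2` -/
def W (n : ℕ) : ℕ := (3 ^ n + 1) / 2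

theorem two_W (n : ℕ) : 2 * W n = 3 ^ n + 1 := by
  have h : 3 ^ n % 2 = 1 := by
    rw [Nat.pow_mod]; simp
  unfold W
  omega

theorem W_zero : W 0 = 1 := rfl

theorem W_succ (n : ℕ) : W (n + 1) = W n + 3 ^ n := by
  have h1 := two_W n
  have h2 := two_W (n + 1)
  rw [pow_succ] at h2
  omega

theorem W_pos (n : ℕ) : 1 ≤ W n := by
  have h1 := two_W n
  have h2 : 1 ≤ 3 ^ n := Nat.one_le_pow _ _ (by norm_num)
  omega

theorem W_le (n : ℕ) : W n ≤ 3 ^ n := by
  have h1 := two_W n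
  have h2 : 1 ≤ 3 ^ n := Nat.one_le_pow _ _ (by norm_num)
  omega

theorem W_mod (m j : ℕ) (h : j ≤ m) : (W (m + 1) : ℤ) ≡ W (j + 1) [ZMOD ((3 ^ (j + 1) : ℕ) : ℤ)] := by
  induction m with
  | zero =>
    obtain rfl : j = 0 := by omega
    exact Int.ModEq.refl _
  | succ m ih =>
    rcases Nat.lt_or_ge j (m + 1) with hj | hj
    · have h1 := ih (by omega)
      have h2 : ((3 ^ (j + 1) : ℕ) : ℤ) ∣ ((3 ^ (m + 1) : ℕ) : ℤ) := by
        exact_mod_cast Nat.pow_dvd_pow 3 (by omega)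
      have h3 : ((3 ^ (m + 1) : ℕ) : ℤ) ≡ 0 [ZMOD ((3 ^ (j + 1) : ℕ) : ℤ)] :=
        (Int.modEq_zero_iff_dvd).2 h2
      have h4 := h1.add h3
      rw [W_succ (m + 1)]
      push_cast at h4 ⊢
      simpa using h4
    · obtain rfl : j = m + 1 := by omega
      exact Int.ModEq.refl _

/-- residues of the sets `A_j` -/
def T (j t : ℕ) : Prop := t < W j ∨ (W (j + 1) ≤ t ∧ t + 1 < W (j + 1) + W j)

instance (j : ℕ) : DecidablePred (T j) := fun t => by unfold T; infer_instance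

theorem cover (n : ℕ) : ∀ d : ℕ, 1 ≤ d → d < W n →
    ∃ j < n, ∃ c : ℤ, (W j : ℤ) ≤ c ∧ c ≤ ((3 ^ j : ℕ) : ℤ) ∧
      (d : ℤ) ≡ c [ZMOD ((3 ^ (j + 1) : ℕ) : ℤ)] := by
  induction n with
  | zero => intro d h1 h2; rw [W_zero] at h2; omega
  | succ n ih =>
    intro d h1 h2
    rw [W_succ] at h2
    rcases Nat.lt_or_ge d (W n) with h | h
    · obtain ⟨j, hj, c, h3, h4, h5⟩ := ih d h1 h
      exact ⟨j, by omega, c, h3, h4, h5⟩
    · rcases Nat.lt_or_ge (3 ^ n) d with h' | h'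
      · obtain ⟨j, hj, c, h3, h4, h5⟩ := ih (d - 3 ^ n) (by omega) (by omega)
        refine ⟨j, by omega, c, h3, h4, ?_⟩
        have h6 : ((3 ^ (j + 1) : ℕ) : ℤ) ∣ ((3 ^ n : ℕ) : ℤ) := by
          exact_mod_cast Nat.pow_dvd_pow 3 (by omega)
        have h7 : ((3 ^ n : ℕ) : ℤ) ≡ 0 [ZMOD ((3 ^ (j + 1) : ℕ) : ℤ)] :=
          (Int.modEq_zero_iff_dvd).2 h6
        have h8 := h5.add h7
        rw [Nat.cast_sub h'.le, sub_add_cancel, add_zero] at h8
        exact h8
      · exact ⟨n, by omega, d, by exact_mod_cast h, by exact_mod_cast h', Int.ModEq.refl _⟩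

theorem key_aux (w w' P x y c k : ℤ) (w1 : 2 * w = P + 1) (w2 : 2 * w' = 3 * P + 1)
    (hx0 : 0 ≤ x) (hx1 : x < 3 * P) (hy0 : 0 ≤ y) (hy1 : y < 3 * P)
    (hx : x < w ∨ (w' ≤ x ∧ x + 1 < w' + w)) (hy : y < w ∨ (w' ≤ y ∧ y + 1 < w' + w))
    (h1 : w ≤ c) (h2 : c ≤ P) (hk : c - (y - x) = 3 * P * k) : False := by
  have hk0 : k = 0 ∨ k = 1 := by
    have hP : 0 < P := by omega
    have q1 : -1 < k := by
      by_contra hcon
      push Not at hcon
      have : 3 * P * k ≤ 3 * P * (-1) := mul_le_mul_of_nonneg_left hcon (by omega)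
      omega
    have q2 : k < 2 := by
      by_contra hcon
      push Not at hcon
      have : 3 * P * 2 ≤ 3 * P * k := mul_le_mul_of_nonneg_left hcon (by omega)
      omega
    omega
  rcases hk0 with rfl | rfl
  · rw [mul_zero] at hk; omega
  · rw [mul_one] at hk; omega

/-- no difference of two elements of `A_j` lies in `[W j, 3^j]` modulo `3^(j+1)` -/
theorem key (j a b : ℕ) (ha : T j (a % 3 ^ (j + 1))) (hb : T j (b % 3 ^ (j + 1))) (c : ℤ)
    (h1 : (W j : ℤ) ≤ c) (h2 : c ≤ ((3 ^ j : ℕ) : ℤ))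
    (h : ((b : ℤ) - a) ≡ c [ZMOD ((3 ^ (j + 1) : ℕ) : ℤ)]) : False := by
  have hM : 0 < 3 ^ (j + 1) := by positivity
  have ha' := Nat.mod_lt a hM
  have hb' := Nat.mod_lt b hM
  have ea : ((a % 3 ^ (j + 1) : ℕ) : ℤ) ≡ a [ZMOD ((3 ^ (j + 1) : ℕ) : ℤ)] := by
    exact_mod_cast Int.mod_modEq (a : ℤ) ((3 ^ (j + 1) : ℕ) : ℤ)
  have eb : ((b % 3 ^ (j + 1) : ℕ) : ℤ) ≡ b [ZMOD ((3 ^ (j + 1) : ℕ) : ℤ)] := by
    exact_mod_cast Int.mod_modEq (b : ℤ) ((3 ^ (j + 1) : ℕ) : ℤ)
  have h3 := ((eb.sub ea).trans h).dvd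
  have w1 : 2 * (W j : ℤ) = ((3 ^ j : ℕ) : ℤ) + 1 := by exact_mod_cast two_W j
  have e3 : ((3 ^ (j + 1) : ℕ) : ℤ) = 3 * ((3 ^ j : ℕ) : ℤ) := by push_cast; ring
  have w2 : 2 * (W (j + 1) : ℤ) = 3 * ((3 ^ j : ℕ) : ℤ) + 1 := by
    rw [← e3]; exact_mod_cast two_W (j + 1)
  obtain ⟨k, hk⟩ := h3
  rw [e3] at hk
  refine key_aux _ _ _ ((a % 3 ^ (j + 1) : ℕ) : ℤ) ((b % 3 ^ (j + 1) : ℕ) : ℤ) c k w1 w2
    (Int.natCast_nonneg _) ?_ (Int.natCast_nonneg _) ?_ ?_ ?_ h1 h2 hk
  · rw [← e3]; exact_mod_cast ha'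
  · rw [← e3]; exact_mod_cast hb'
  · exact_mod_cast ha
  · exact_mod_cast hb

theorem count_add_dvd (j x b : ℕ) (hx : 3 ^ (j + 1) ∣ x) :
    Nat.count (fun a => T j (a % 3 ^ (j + 1))) (x + b) =
      Nat.count (fun a => T j (a % 3 ^ (j + 1))) x +
        Nat.count (fun a => T j (a % 3 ^ (j + 1))) b := by
  rw [Nat.count_add]
  congr 1
  have : (fun k => T j ((x + k) % 3 ^ (j + 1))) = fun a => T j (a % 3 ^ (j + 1)) := by
    funext k
    obtain ⟨y, rfl⟩ := hx
    rw [Nat.mul_add_mod]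
  simp only [this]

theorem count_W_base (j : ℕ) :
    Nat.count (fun a => T j (a % 3 ^ (j + 1))) (W (j + 1)) = W j := by
  rw [Nat.count_eq_card_filter_range]
  have h : (range (W (j + 1))).filter (fun a => T j (a % 3 ^ (j + 1))) = range (W j) := by
    ext a
    rw [mem_filter, mem_range, mem_range]
    have h1 := W_le (j + 1)
    have h2 := W_succ j
    constructor
    · rintro ⟨h3, h4⟩
      rw [Nat.mod_eq_of_lt (by omega)] at h4
      unfold T at h4
      omega
    · intro h3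
      refine ⟨by omega, ?_⟩
      rw [Nat.mod_eq_of_lt (by omega)]
      exact Or.inl h3
  rw [h, card_range]

theorem count_M (j : ℕ) :
    Nat.count (fun a => T j (a % 3 ^ (j + 1))) (3 ^ (j + 1)) = 3 ^ j := by
  rw [Nat.count_eq_card_filter_range]
  have w1 := two_W j
  have w2 := two_W (j + 1)
  have e3 : 3 ^ (j + 1) = 3 * 3 ^ j := by rw [pow_succ]; ring
  have h : (range (3 ^ (j + 1))).filter (fun a => T j (a % 3 ^ (j + 1))) =
      range (W j) ∪ Ico (W (j + 1)) (W (j + 1) + W j - 1) := by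
    ext a
    rw [mem_filter, mem_union, mem_range, mem_range, mem_Ico]
    constructor
    · rintro ⟨h3, h4⟩
      rw [Nat.mod_eq_of_lt h3] at h4
      unfold T at h4
      omega
    · intro h3
      have h4 : a < 3 ^ (j + 1) := by omega
      refine ⟨h4, ?_⟩
      rw [Nat.mod_eq_of_lt h4]
      unfold T
      omega
  rw [h, card_union_of_disjoint, card_range, Nat.card_Ico]
  · omega
  · rw [disjoint_left]
    intro a ha hb
    rw [mem_range] at ha
    rw [mem_Ico] at hb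
    have := W_succ j
    omega

theorem count_pow (j i : ℕ) :
    Nat.count (fun a => T j (a % 3 ^ (j + 1))) (3 ^ (j + 1 + i)) = 3 ^ (j + i) := by
  induction i with
  | zero => exact count_M j
  | succ i ih =>
    have h1 : 3 ^ (j + 1 + (i + 1)) = 3 ^ (j + 1 + i) + (3 ^ (j + 1 + i) + 3 ^ (j + 1 + i)) := by
      rw [← add_assoc, pow_succ]; ring
    have h2 : 3 ^ (j + 1) ∣ 3 ^ (j + 1 + i) := pow_dvd_pow _ (by omega)
    rw [h1, count_add_dvd _ _ _ h2, count_add_dvd _ _ _ h2, ih]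
    rw [show j + (i + 1) = j + i + 1 by ring, pow_succ]
    ring

theorem count_W (j m : ℕ) (h : j ≤ m) :
    Nat.count (fun a => T j (a % 3 ^ (j + 1))) (W (m + 1)) = W m := by
  obtain ⟨i, rfl⟩ := Nat.exists_eq_add_of_le h
  clear h
  induction i with
  | zero => exact count_W_base j
  | succ i ih =>
    have h1 : W (j + (i + 1) + 1) = 3 ^ (j + 1 + i) + W (j + i + 1) := by
      rw [W_succ, show j + (i + 1) = j + i + 1 by ring, show j + 1 + i = j + i + 1 by ring]
      ring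
    rw [h1, count_add_dvd _ _ _ (pow_dvd_pow _ (by omega)), count_pow, ih]
    rw [show j + (i + 1) = j + i + 1 by ring, W_succ]
    ring

instance (m : ℕ) : NeZero (W (m + 1)) := ⟨by have := W_pos (m + 1); omega⟩

/-- the letters of the code -/
def S (m j : ℕ) (u : Fin (W (m + 1))) : Finset (Fin (W (m + 1))) :=
  univ.filter fun t => T j ((u - t : Fin (W (m + 1))).val % 3 ^ (j + 1))

theorem S_card (m j : ℕ) (h : j ≤ m) (u : Fin (W (m + 1))) : (S m j u).card = W m := by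
  have h1 : (S m j u).card =
      (univ.filter fun t : Fin (W (m + 1)) => T j (t.val % 3 ^ (j + 1))).card := by
    unfold S
    refine card_bij' (fun t _ => u - t) (fun t _ => u - t) ?_ ?_ ?_ ?_
    · intro t ht
      rw [mem_filter] at ht ⊢
      exact ⟨mem_univ _, ht.2⟩
    · intro t ht
      rw [mem_filter] at ht ⊢
      refine ⟨mem_univ _, ?_⟩
      rw [sub_sub_cancel]
      exact ht.2
    · intro t _
      exact sub_sub_cancel u t
    · intro t _
      exact sub_sub_cancel u t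
  rw [h1, ← count_W j m h, Nat.count_eq_card_filter_range]
  refine card_bij (fun t _ => t.val) ?_ ?_ ?_
  · intro t ht
    rw [mem_filter] at ht ⊢
    exact ⟨mem_range.2 t.2, ht.2⟩
  · intro a _ b _ hab
    exact Fin.ext hab
  · intro a ha
    rw [mem_filter, mem_range] at ha
    exact ⟨⟨a, ha.1⟩, by rw [mem_filter]; exact ⟨mem_univ _, ha.2⟩, rfl⟩

theorem sub_val (N : ℕ) [NeZero N] (u t : Fin N) :
    (((u - t : Fin N).val : ℕ) : ℤ) ≡ (u.val : ℤ) - t.val [ZMOD (N : ℤ)] := by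
  rw [Fin.sub_def]
  have h := t.2
  simp only
  push_cast
  refine (Int.mod_modEq _ _).trans ?_
  rw [Nat.cast_sub h.le]
  have : (N : ℤ) - t.val + u.val = u.val - t.val + N := by ring
  rw [this]
  exact Int.add_modEq_right

theorem disj_lt (m : ℕ) (u v : Fin (W (m + 1))) (huv : u.val < v.val) :
    ∃ j ≤ m, Disjoint (S m j u) (S m j v) := by
  obtain ⟨j, hj, c, h1, h2, h3⟩ := cover (m + 1) (v.val - u.val) (by omega) (by
    have := v.2
    omega)
  refine ⟨j, by omega, ?_⟩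
  rw [disjoint_left]
  intro t ht ht'
  unfold S at ht ht'
  rw [mem_filter] at ht ht'
  have e1 := sub_val _ u t
  have e2 := sub_val _ v t
  have hx := (u - t : Fin (W (m + 1))).2
  have hy := (v - t : Fin (W (m + 1))).2
  generalize (u - t : Fin (W (m + 1))).val = x at *
  generalize (v - t : Fin (W (m + 1))).val = y at *
  have e3 : ((y : ℤ) - x) ≡ ((v.val - u.val : ℕ) : ℤ) [ZMOD (W (m + 1) : ℤ)] := by
    have e4 := e2.sub e1
    have e5 : ((v.val : ℤ) - t.val) - (u.val - t.val) = ((v.val - u.val : ℕ) : ℤ) := by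
      rw [Nat.cast_sub huv.le]; ring
    rw [e5] at e4
    exact e4
  obtain ⟨k, hk⟩ := e3.dvd
  have hv := v.2
  have hd1 : (0 : ℤ) < ((v.val - u.val : ℕ) : ℤ) := by omega
  have hd2 : ((v.val - u.val : ℕ) : ℤ) < W (m + 1) := by omega
  generalize ((v.val - u.val : ℕ) : ℤ) = d at *
  have hk0 : k = 0 ∨ k = 1 := by
    have q1 : -1 < k := by
      by_contra hcon
      push Not at hcon
      have : (W (m + 1) : ℤ) * k ≤ (W (m + 1) : ℤ) * (-1) :=
        mul_le_mul_of_nonneg_left hcon (by omega)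
      omega
    have q2 : k < 2 := by
      by_contra hcon
      push Not at hcon
      have : (W (m + 1) : ℤ) * 2 ≤ (W (m + 1) : ℤ) * k :=
        mul_le_mul_of_nonneg_left hcon (by omega)
      omega
    omega
  rcases hk0 with rfl | rfl
  · rw [mul_zero] at hk
    refine key j x y ht.2 ht'.2 c h1 h2 ?_
    have : (y : ℤ) - x = d := by omega
    rw [this]
    exact h3
  · rw [mul_one] at hk
    refine key j y x ht'.2 ht.2 (W (j + 1) - c) ?_ ?_ ?_
    · have := W_succ j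
      push_cast [this] at h2 ⊢
      omega
    · have := W_succ j
      push_cast [this] at h2 ⊢
      omega
    · have : (x : ℤ) - y = W (m + 1) - d := by omega
      rw [this]
      exact (W_mod m j (by omega)).sub h3

theorem disj (m : ℕ) (u v : Fin (W (m + 1))) (huv : u ≠ v) :
    ∃ j ≤ m, Disjoint (S m j u) (S m j v) := by
  rcases lt_or_gt_of_ne (fun h => huv (Fin.ext h)) with h | h
  · exact disj_lt m u v h
  · obtain ⟨j, hj, h1⟩ := disj_lt m v u h
    exact ⟨j, hj, h1.symm⟩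

variable {φ : (V : Type) → [Fintype V] → SimpleGraph V → ℝ}

/-- the code bound -/
theorem schur (hφ : IsSpectralPoint φ) (m : ℕ) :
    ((W (m + 1) : ℕ) : ℝ) ≤ φ _ (KC (W (m + 1)) (W m)) ^ (m + 1) := by
  have h := lowerA hφ (ι := Fin (W (m + 1))) (m + 1) (KC (W (m + 1)) (W m))
    (fun u j => ⟨S m j.val u, S_card m j.val (by omega) u⟩) (fun u v huv => ?_)
  · rw [Fintype.card_fin] at h
    exact h
  · obtain ⟨j, hj, h1⟩ := disj m u v huv
    refine ⟨⟨j, by omega⟩, ?_⟩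
    rw [KC_compl _ _ (W_pos m)]
    exact h1

/-- blow-up -/
theorem blow (hφ : IsSpectralPoint φ) (N Q p q t : ℕ) (hQ : 1 ≤ Q) (hq : 1 ≤ q)
    (ht : q ≤ Q * t) (hp : N * t ≤ p) : φ _ (KC N Q) ≤ φ _ (KC p q) := by
  refine le_trans ?_ (KC_mono hφ q hq hp)
  have hc : ∀ s : {s : Finset (Fin N) // s.card = Q}, ∃ r : Finset (Fin (N * t)),
      r ⊆ (s.1 ×ˢ (univ : Finset (Fin t))).map finProdFinEquiv.toEmbedding ∧ r.card = q := by
    intro s
    apply exists_subset_card_eq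
    rw [card_map, card_product, s.2, card_univ, Fintype.card_fin]
    exact ht
  choose r hr1 hr2 using hc
  refine mono' hφ _ _ (fun s => ⟨r s, hr2 s⟩) (fun x y hxy => ?_)
  rw [KC_compl _ _ hQ] at hxy
  rw [KC_compl _ _ hq]
  refine disjoint_of_subset_left (hr1 x) (disjoint_of_subset_right (hr1 y) ?_)
  rw [disjoint_map, disjoint_product]
  exact Or.inl hxy

end Pool.Agent.KNI
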